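import Pool.Agent.helper71.EP.SpecE
import Pool.Agent.helper61.TG.WT6

set_option autoImplicit false

open Finset
open scoped Real
open Pool.Agent.helper74.TG

noncomputable section

namespace Pool.Agent.EP

theorem ETR_parsevalA (N P : ℕ) (hP : 6 * N < P) (a : ℕ → ℂ) :
    ∑ k ∈ range P, ‖∑ x ∈ Ioc 0 N, a x * ee (x * ((k : ℝ) / P))‖ ^ 2 =
      P * ∑ x ∈ Ioc 0 N, ‖a x‖ ^ 2 := by
  refine h61.parseval P (Ioc 0 N) (fun x hx => ?_) a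
  rw [Finset.mem_Ioc] at hx
  omega

theorem ETR_parsevalB (N P : ℕ) (hP : 6 * N < P) (b : ℕ → ℂ) :
    ∑ k ∈ range P, ‖∑ y ∈ Ioc 0 N, b y * ee (y * (4 * ((k : ℝ) / P)))‖ ^ 2 =
      P * ∑ y ∈ Ioc 0 N, ‖b y‖ ^ 2 := by
  have hinj : Set.InjOn (fun y : ℕ => 4 * y) (Ioc 0 N : Finset ℕ) := by
    intro x _ y _ h
    have h' : 4 * x = 4 * y := h
    omega
  have h1 := h61.parseval P ((Ioc 0 N).image (fun y : ℕ => 4 * y)) (fun x hx => by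
    rw [Finset.mem_image] at hx
    obtain ⟨y, hy, rfl⟩ := hx
    rw [Finset.mem_Ioc] at hy
    omega) (fun z => b (z / 4))
  rw [Finset.sum_image hinj] at h1
  have h2 : ∀ y : ℕ, 4 * y / 4 = y := fun y => Nat.mul_div_cancel_left y (by norm_num)
  simp only [h2] at h1
  rw [← h1]
  refine Finset.sum_congr rfl fun k _ => ?_
  rw [Finset.sum_image hinj]
  congr 2
  refine Finset.sum_congr rfl fun y _ => ?_
  simp only [h2]
  congr 2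
  push_cast
  ring

theorem ETR_norm (m T P k : ℕ) :
    ‖∑ t ∈ Ioc 0 T, ee (-((hq m t : ℝ) * ((k : ℝ) / P)))‖ =
      ‖∑ t ∈ Ioc 0 T, ee ((hq m t : ℝ) * ((k : ℝ) / P))‖ := by
  simp only [h61.ee_neg]
  rw [← map_sum, RCLike.norm_conj]

theorem ETR (hEHO : EHO_stmt) (hEID : EID_stmt) (hEF4 : EF4_stmt) : ETR_stmt := by
  intro m T a b e S hA hB hcase
  obtain ⟨P, hP⟩ : ∃ P : ℕ, P = 6 * hq m T + 1 := ⟨_, rfl⟩
  have hP6 : 6 * hq m T < P := by omega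
  have hP0 : (0 : ℝ) < P := by
    have : 0 < P := by omega
    exact_mod_cast this
  have hS : 0 ≤ S := le_trans (Finset.sum_nonneg fun x _ => by positivity) hA
  have hRR := hEID m T P a b hP6
  have h4 := hEF4 m T P (by omega)
  have hPA := ETR_parsevalA (hq m T) P hP6 a
  have hPB := ETR_parsevalB (hq m T) P hP6 b
  obtain ⟨A, hAd⟩ : ∃ A : ℕ → ℂ, A = fun k : ℕ => ∑ x ∈ Ioc 0 (hq m T), a x * ee (x * ((k : ℝ) / P)) :=
    ⟨_, rfl⟩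
  obtain ⟨B, hBd⟩ : ∃ B : ℕ → ℂ, B = fun k : ℕ => ∑ y ∈ Ioc 0 (hq m T), b y * ee (y * (4 * ((k : ℝ) / P))) :=
    ⟨_, rfl⟩
  obtain ⟨W, hWd⟩ : ∃ W : ℕ → ℂ, W = fun k : ℕ => ∑ t ∈ Ioc 0 T, ee (-((hq m t : ℝ) * ((k : ℝ) / P))) :=
    ⟨_, rfl⟩
  have hPA' : ∑ k ∈ range P, ‖A k‖ ^ 2 ≤ P * S := by
    rw [hAd, hPA]
    exact mul_le_mul_of_nonneg_left hA hP0.le
  have hPB' : ∑ k ∈ range P, ‖B k‖ ^ 2 ≤ P * S := by
    rw [hBd, hPB]
    exact mul_le_mul_of_nonneg_left hB hP0.le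
  have hPW : ∑ k ∈ range P, ‖W k‖ ^ 4 = P * #(Qd m T) := by
    rw [hWd]
    simp only [ETR_norm]
    exact h4
  have hRR' : (P : ℂ) * RR m T a b = ∑ k ∈ range P, A k * B k * W k * ee ((k : ℝ) / P) := by
    rw [hAd, hBd, hWd]
    exact hRR
  have hb1 : (P : ℝ) * ‖RR m T a b‖ ≤ ∑ k ∈ range P, ‖A k‖ * ‖B k‖ * ‖W k‖ := by
    calc (P : ℝ) * ‖RR m T a b‖ = ‖(P : ℂ) * RR m T a b‖ := by
          rw [norm_mul, Complex.norm_natCast]
      _ = ‖∑ k ∈ range P, A k * B k * W k * ee ((k : ℝ) / P)‖ := by rw [hRR']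
      _ ≤ ∑ k ∈ range P, ‖A k * B k * W k * ee ((k : ℝ) / P)‖ := norm_sum_le _ _
      _ = ∑ k ∈ range P, ‖A k‖ * ‖B k‖ * ‖W k‖ := by
          refine Finset.sum_congr rfl fun k _ => ?_
          rw [norm_mul, norm_mul, norm_mul, h61.ee_norm, mul_one]
  have hmain : (∑ k ∈ range P, ‖A k‖ * ‖B k‖ * ‖W k‖) ^ 4 ≤
      (P * S) ^ 2 * e ^ 2 * (P * S) * (P * #(Qd m T)) := by
    have hPS : (0 : ℝ) ≤ P * S := by positivity
    rcases hcase with hc | hc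
    · have h := hEHO P (fun k => ‖A k‖) (fun k => ‖B k‖) (fun k => ‖W k‖) e
        (fun k => norm_nonneg _) (fun k => norm_nonneg _) (fun k => norm_nonneg _)
        (fun k => by rw [hAd]; exact hc _)
      refine h.trans ?_
      rw [hPW]
      have hs1 : (∑ k ∈ range P, ‖B k‖ ^ 2) ^ 2 ≤ (P * S) ^ 2 :=
        pow_le_pow_left₀ (Finset.sum_nonneg fun k _ => by positivity) hPB' 2
      have h0 : (0 : ℝ) ≤ ∑ k ∈ range P, ‖A k‖ ^ 2 := Finset.sum_nonneg fun k _ => by positivity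
      gcongr
    · have h := hEHO P (fun k => ‖B k‖) (fun k => ‖A k‖) (fun k => ‖W k‖) e
        (fun k => norm_nonneg _) (fun k => norm_nonneg _) (fun k => norm_nonneg _)
        (fun k => by rw [hBd]; exact hc _)
      have heq : ∑ k ∈ range P, ‖A k‖ * ‖B k‖ * ‖W k‖ = ∑ k ∈ range P, ‖B k‖ * ‖A k‖ * ‖W k‖ :=
        Finset.sum_congr rfl fun k _ => by rw [mul_comm ‖A k‖ ‖B k‖]
      rw [heq]
      refine h.trans ?_
      rw [hPW]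
      have hs1 : (∑ k ∈ range P, ‖A k‖ ^ 2) ^ 2 ≤ (P * S) ^ 2 :=
        pow_le_pow_left₀ (Finset.sum_nonneg fun k _ => by positivity) hPA' 2
      have h0 : (0 : ℝ) ≤ ∑ k ∈ range P, ‖B k‖ ^ 2 := Finset.sum_nonneg fun k _ => by positivity
      gcongr
  have h5 : ((P : ℝ) * ‖RR m T a b‖) ^ 4 ≤ (P * S) ^ 2 * e ^ 2 * (P * S) * (P * #(Qd m T)) :=
    (pow_le_pow_left₀ (by positivity) hb1 4).trans hmain
  have h6 : (P : ℝ) ^ 4 * ‖RR m T a b‖ ^ 4 ≤ (P : ℝ) ^ 4 * (S ^ 3 * e ^ 2 * #(Qd m T)) := by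
    calc (P : ℝ) ^ 4 * ‖RR m T a b‖ ^ 4 = ((P : ℝ) * ‖RR m T a b‖) ^ 4 := by ring
      _ ≤ (P * S) ^ 2 * e ^ 2 * (P * S) * (P * #(Qd m T)) := h5
      _ = (P : ℝ) ^ 4 * (S ^ 3 * e ^ 2 * #(Qd m T)) := by ring
  exact le_of_mul_le_mul_left h6 (by positivity)

end Pool.Agent.EP
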