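import Pool.Agent.helper99.EP.Spec

/-!
# Row EVA of project EP (MP_bf63dc_nt)
-/

set_option autoImplicit false

namespace Pool.Agent.EP

open Finset Pool.Agent.helper85.FC Pool.Agent.OM Pool.Agent.helper11.TX Pool.Agent.AT

/-- the relation: good up to a power of two below `2 ^ (2 L)` -/
def EVA_R (ε : ℝ) (L : ℕ) (s t : ℕ) : Prop := ∃ k < 2 * L, GQ ε (2 ^ k * s) t ∨ GQ ε s (2 ^ k * t)

theorem EVA_symm (hG : GQS_stmt) (ε : ℝ) (L s t : ℕ) (h : EVA_R ε L s t) : EVA_R ε L t s := by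
  obtain ⟨k, hk, h | h⟩ := h
  · exact ⟨k, hk, Or.inr (hG.1 _ _ _ h)⟩
  · exact ⟨k, hk, Or.inl (hG.1 _ _ _ h)⟩

theorem EVA_inv (hG : GQS_stmt) (ε : ℝ) (L c s t : ℕ) (hc : 1 ≤ c) (h : EVA_R ε L (s * c) (t * c)) :
    EVA_R ε L s t := by
  obtain ⟨k, hk, h | h⟩ := h
  · refine ⟨k, hk, Or.inl ?_⟩
    rw [← mul_assoc] at h
    exact (hG.2.1 ε c _ _ hc).1 h
  · refine ⟨k, hk, Or.inr ?_⟩
    rw [← mul_assoc] at h
    exact (hG.2.1 ε c _ _ hc).1 h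

/-- elements that differ by a small power of two are related -/
theorem EVA_pow (hG : GQS_stmt) (ε : ℝ) (L k₁ : ℕ) (hk₁ : k₁ < L) (h₁ : GQ ε (2 ^ k₁) 1) (j t : ℕ) (hj : j < L)
    (ht : 1 ≤ t) : EVA_R ε L (2 ^ j * t) t := by
  refine ⟨k₁ + j, by omega, Or.inr ?_⟩
  have h2 : 1 ≤ 2 ^ j * t := Nat.mul_pos (by positivity) ht
  have h3 : GQ ε (2 ^ k₁ * (2 ^ j * t)) (1 * (2 ^ j * t)) := (hG.2.1 ε _ _ _ h2).2 h₁
  have h4 := hG.1 _ _ _ h3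
  rw [one_mul] at h4
  rw [pow_add, mul_assoc]
  exact h4

theorem EVA (hMXC : MXC_stmt) (hGQS : GQS_stmt) (hPW2 : PW2_stmt) : EVA_stmt := by
  intro hO ε hε
  obtain ⟨ε', hε'0, hε'1, hε'ε⟩ : ∃ ε' : ℝ, 0 < ε' ∧ ε' ≤ 1 / 100 ∧ ε' ≤ ε :=
    ⟨min ε (1 / 100), lt_min hε (by norm_num), min_le_right _ _, min_le_left _ _⟩
  obtain ⟨L, hL, ⟨k₁, hk₁, hk₁L, hg₁⟩, hX⟩ := hPW2 hO ε' hε'0 hε'1
  obtain ⟨S₀, hS₀, hS₀1, hS⟩ := hMXC 3 (EVA_R ε' L) (EVA_symm hGQS ε' L)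
    (fun s hs => by
      have := EVA_pow hGQS ε' L k₁ hk₁L hg₁ 0 s (by omega) hs
      rwa [pow_zero, one_mul] at this)
    (fun c s t hc _ _ h => EVA_inv hGQS ε' L c s t hc h)
    (by
      intro X hX1 hX3
      obtain ⟨Y, hYX, hY4⟩ := Finset.exists_subset_card_eq (show 4 ≤ #X by omega)
      by_cases hp : ∀ s ∈ Y, ∀ t ∈ Y, s ≠ t → ∀ k < L, s ≠ 2 ^ k * t
      · obtain ⟨s, hs, t, ht, hst, k, hk, h⟩ := hX Y (fun s hs => hX1 s (hYX hs)) hY4 hp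
        exact ⟨s, hYX hs, t, hYX ht, hst, k, by omega, h⟩
      · push Not at hp
        obtain ⟨s, hs, t, ht, hst, k, hk, h⟩ := hp
        refine ⟨s, hYX hs, t, hYX ht, hst, ?_⟩
        rw [h]
        exact EVA_pow hGQS ε' L k₁ hk₁L hg₁ k t hk (hX1 t (hYX ht)))
  refine ⟨(S₀ ×ˢ range (4 * L)).image (fun p => 2 ^ p.2 * p.1), ?_, ?_⟩
  · intro s hs
    obtain ⟨p, hp, rfl⟩ := Finset.mem_image.1 hs
    exact Nat.mul_pos (by positivity) (hS₀1 _ (Finset.mem_product.1 hp).1)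
  · intro a b ha hb
    obtain ⟨s, hs, k, hk, h | h⟩ := hS (2 ^ (2 * L) * a) b (Nat.mul_pos (by positivity) ha) hb
    · refine ⟨2 ^ (2 * L + k) * s, Finset.mem_image.2 ⟨(s, 2 * L + k), ?_, rfl⟩, ?_⟩
      · exact Finset.mem_product.2 ⟨hs, Finset.mem_range.2 (by omega)⟩
      · have e : 2 ^ (2 * L + k) * s * a = 2 ^ k * (s * (2 ^ (2 * L) * a)) := by
          rw [pow_add]; ring
        rw [e]
        exact hGQS.2.2 _ _ _ _ hε'ε h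
    · refine ⟨2 ^ (2 * L - k) * s, Finset.mem_image.2 ⟨(s, 2 * L - k), ?_, rfl⟩, ?_⟩
      · exact Finset.mem_product.2 ⟨hs, Finset.mem_range.2 (by omega)⟩
      · have e : s * (2 ^ (2 * L) * a) = 2 ^ (2 * L - k) * s * a * 2 ^ k := by
          have : (2 : ℕ) ^ (2 * L) = 2 ^ (2 * L - k) * 2 ^ k := by
            rw [← pow_add]; congr 1; omega
          rw [this]; ring
        rw [e, mul_comm (2 ^ k) b] at h
        exact hGQS.2.2 _ _ _ _ hε'ε ((hGQS.2.1 ε' (2 ^ k) _ _ (Nat.one_le_two_pow)).1 h)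

end Pool.Agent.EP
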